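import Pool.Agent.Helper48.Res.Fin
import Pool.Agent.Helper65.Res.A2

/-!
# The final arithmetic of route A: the hypothesis `hfin` of `RouteA.SetUp.card_le_list`
-/

namespace Helper48.Res

open RouteA

/-- from the two extreme numbers of flagged blocks to all numbers -/
theorem corners (s j A c D a0 a2 a3 g2 g3 b2 b3 : ℤ) (hs : 0 ≤ s) (hg2 : 0 ≤ g2) (hg2' : g2 ≤ a2)
    (hg3 : 0 ≤ g3) (hg3' : g3 ≤ a3)
    (hfull : 3 * s * (s - 1) * A + c * (j * (j - 1) - 2 * a2 ^ 2 - 6 * a2 * a3 - 6 * a3 ^ 2) + 18 * s ^ 2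
      - 12 * s - 6 * j * s + b2 * a2 + b3 * a3 + 6 * a2 * (s ^ 2 - D * a0) + 6 * a3 * ((s + 1) ^ 2 - D * a0) ≤ 0)
    (hmix : 3 * s * (s - 1) * A + c * (j * (j - 1) - 2 * a2 ^ 2 - 6 * a2 * a3 - 6 * a3 ^ 2) + 18 * s ^ 2
      - 12 * s - 6 * j * s + b2 * a2 + b3 * a3 + 6 * a3 * (2 * s + 1) ≤ 0) :
    3 * s * (s - 1) * A + c * (j * (j - 1) - 2 * a2 ^ 2 - 6 * a2 * a3 - 6 * a3 ^ 2) + 18 * s ^ 2
      - 12 * s - 6 * j * s + b2 * a2 + b3 * a3 + 6 * g2 * (s ^ 2 - D * a0) + 6 * g3 * ((s + 1) ^ 2 - D * a0)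
      ≤ 0 := by
  rcases le_total 0 (s ^ 2 - D * a0) with hX | hX
  · have h1 : 6 * g2 * (s ^ 2 - D * a0) ≤ 6 * a2 * (s ^ 2 - D * a0) :=
      mul_le_mul_of_nonneg_right (by linarith) hX
    have h2 : 6 * g3 * ((s + 1) ^ 2 - D * a0) ≤ 6 * a3 * ((s + 1) ^ 2 - D * a0) :=
      mul_le_mul_of_nonneg_right (by linarith) (by nlinarith)
    linarith
  · have h1 : 6 * g2 * (s ^ 2 - D * a0) ≤ 0 :=
      mul_nonpos_of_nonneg_of_nonpos (by linarith) hX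
    have h2 : 6 * g3 * ((s + 1) ^ 2 - D * a0) ≤ 6 * g3 * (2 * s + 1) :=
      mul_le_mul_of_nonneg_left (by nlinarith) (by linarith)
    have h3 : 6 * g3 * (2 * s + 1) ≤ 6 * a3 * (2 * s + 1) :=
      mul_le_mul_of_nonneg_right (by linarith) (by linarith)
    linarith

/-- the display in the variables of the core -/
theorem disp_eq (s j a0 a1 a2 a3 g2 g3 A c D : ℤ) (hJ : a1 + 2 * a2 + 3 * a3 = j) (hs : 8 ≤ s)
    (hA : cAB s j = A) (hc : cC s j = A + c) (hD : min (cFL s j) (cAB s j) = A - D) :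
    disp s j a0 a1 a2 a3 g2 g3 =
      3 * s * (s - 1) * A + c * (j * (j - 1) - 2 * a2 ^ 2 - 6 * a2 * a3 - 6 * a3 ^ 2) + 18 * s ^ 2
      - 12 * s - 6 * j * s + (2 * s - 16) * a2 + (2 * s - 10) * a3 + 6 * g2 * (s ^ 2 - D * a0)
      + 6 * g3 * ((s + 1) ^ 2 - D * a0) := by
  unfold disp
  rw [hD, hA, hc, NN_eq j a1 a2 a3 hJ, max_eq_right (by linarith : (0:ℤ) ≤ 2 * s - 16),
    max_eq_right (by linarith : (0:ℤ) ≤ 2 * s - 10)]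
  ring

/-- one regime -/
theorem regime (s j a0 a1 a2 a3 g2 g3 A c D : ℤ) (hs : 8 ≤ s) (_h1 : 0 ≤ a1) (hg2 : 0 ≤ g2)
    (hg2' : g2 ≤ a2) (hg3 : 0 ≤ g3) (hg3' : g3 ≤ a3) (hS : a0 + a1 + a2 + a3 = s)
    (hJ : a1 + 2 * a2 + 3 * a3 = j)
    (hA : cAB s j = A) (hc : cC s j = A + c) (hD : min (cFL s j) (cAB s j) = A - D)
    (hc0 : s - 2 ≤ c) (hD0 : 0 ≤ D) (hcD : 8 * s ≤ 4 * c + 6 * D)
    (hdisc : (2 * s - 16 + 6 * s ^ 2 - 6 * D * (s - j)) ^ 2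
      + 4 * (3 * s * (s - 1) * A + c * (j * (j - 1)) + 18 * s ^ 2 - 12 * s - 6 * j * s + 8 * s + 12)
        * (2 * c + 6 * D) ≤ 0) :
    disp s j a0 a1 a2 a3 g2 g3 ≤ 0 := by
  have ha0 : a0 = s - j + a2 + 2 * a3 := by linarith
  obtain ⟨k1, k2⟩ := core s j A c D hs hc0 hD0 hcD hdisc a2 a3 (by linarith) (by linarith)
  rw [disp_eq s j a0 a1 a2 a3 g2 g3 A c D hJ hs hA hc hD]
  apply corners s j A c D a0 a2 a3 g2 g3 (2 * s - 16) (2 * s - 10) (by linarith) hg2 hg2' hg3 hg3'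
  · rw [ha0]; exact k1
  · exact k2

theorem hfin_big (s j a0 a1 a2 a3 g2 g3 : ℤ) (hs : 8 ≤ s) (hj : 2 ≤ j) (h0 : 0 ≤ a0) (h1 : 0 ≤ a1)
    (hg2 : 0 ≤ g2) (hg2' : g2 ≤ a2) (hg3 : 0 ≤ g3) (hg3' : g3 ≤ a3) (hS : a0 + a1 + a2 + a3 = s)
    (hJ : a1 + 2 * a2 + 3 * a3 = j) : disp s j a0 a1 a2 a3 g2 g3 ≤ 0 := by
  have hj3 : j ≤ 3 * s := by linarith
  rcases eq_or_lt_of_le hj with hj2 | hj2
  · -- `j = 2`
    have ha3 : a3 = 0 := by omega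
    have e1 : cAB s j = -6 ∧ cC s j = -6 + (s - 2) ∧ min (cFL s j) (cAB s j) = -6 - (s + 2) := by
      unfold cFL cAB cC; omega
    rw [disp_eq s j a0 a1 a2 a3 g2 g3 (-6) (s - 2) (s + 2) hJ hs e1.1 e1.2.1 e1.2.2]
    have ha2 : a2 = 0 ∨ a2 = 1 := by omega
    have ha0 : a0 = s - j + a2 + 2 * a3 := by linarith
    apply corners s j _ _ _ a0 a2 a3 g2 g3 (2 * s - 16) (2 * s - 10) (by linarith) hg2 hg2' hg3 hg3'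
    · rw [ha0, ha3, ← hj2]
      rcases ha2 with h | h <;> rw [h] <;> nlinarith
    · rw [ha3, ← hj2]
      rcases ha2 with h | h <;> rw [h] <;> nlinarith
  rcases le_total (3 * j) (s + 4) with hr1 | hr1
  · -- regime 1
    have e1 : cAB s j = -3 * j ∧ cC s j = -3 * j + (s - 6 + 2 * j)
        ∧ min (cFL s j) (cAB s j) = -3 * j - (s + 6 - 2 * j) := by
      unfold cFL cAB cC; omega
    apply regime s j a0 a1 a2 a3 g2 g3 _ _ _ hs h1 hg2 hg2' hg3 hg3' hS hJ e1.1 e1.2.1 e1.2.2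
      (by linarith) (by linarith) (by linarith)
    rcases eq_or_lt_of_le (show 3 ≤ j by linarith) with h3 | h3
    · rw [← h3]; exact disc1' s hs
    · exact disc1 s j (by linarith) hr1
  rcases le_total j s with hr2 | hr2
  · -- regime 2
    have e1 : cAB s j = -(s + 4) ∧ cC s j = -(s + 4) + (2 * s - 2 - j)
        ∧ min (cFL s j) (cAB s j) = -(s + 4) - (j + 2) := by
      unfold cFL cAB cC; omega
    exact regime s j a0 a1 a2 a3 g2 g3 _ _ _ hs h1 hg2 hg2' hg3 hg3' hS hJ e1.1 e1.2.1 e1.2.2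
      (by linarith) (by linarith) (by linarith) (disc2 s j hs hr1 hr2)
  rcases le_total (2 * j) (3 * s + 2) with hr3 | hr3
  · -- regime 3
    have e1 : cAB s j = (2 * s - 4 - 3 * j) ∧ cC s j = (2 * s - 4 - 3 * j) + (2 * j - s - 2)
        ∧ min (cFL s j) (cAB s j) = (2 * s - 4 - 3 * j) - (3 * s + 2 - 2 * j) := by
      unfold cFL cAB cC; omega
    exact regime s j a0 a1 a2 a3 g2 g3 _ _ _ hs h1 hg2 hg2' hg3 hg3' hS hJ e1.1 e1.2.1 e1.2.2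
      (by linarith) (by linarith) (by linarith) (disc3 s j hs hr2 hr3)
  · -- regime 4
    have e1 : cAB s j = (2 * s - 4 - 3 * j) ∧ cC s j = (2 * s - 4 - 3 * j) + (2 * s)
        ∧ min (cFL s j) (cAB s j) = (2 * s - 4 - 3 * j) - 0 := by
      unfold cFL cAB cC; omega
    exact regime s j a0 a1 a2 a3 g2 g3 _ _ _ hs h1 hg2 hg2' hg3 hg3' hS hJ e1.1 e1.2.1 e1.2.2
      (by linarith) (by linarith) (by linarith) (disc4 s j hs hr3 hj3)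

/-- small `s`: the four extreme numbers of flagged blocks -/
theorem small_check : ∀ s : Fin 5, ∀ a1 a2 a3 : Fin 8, (a1 : ℕ) + a2 + a3 ≤ (s : ℕ) + 3 →
    2 ≤ (a1 : ℕ) + 2 * a2 + 3 * a3 →
    disp ((s : ℕ) + 3) ((a1 : ℕ) + 2 * (a2 : ℕ) + 3 * (a3 : ℕ))
      ((s : ℕ) + 3 - (a1 : ℕ) - (a2 : ℕ) - (a3 : ℕ)) (a1 : ℕ) (a2 : ℕ) (a3 : ℕ) 0 0 ≤ 0 ∧
    disp ((s : ℕ) + 3) ((a1 : ℕ) + 2 * (a2 : ℕ) + 3 * (a3 : ℕ))
      ((s : ℕ) + 3 - (a1 : ℕ) - (a2 : ℕ) - (a3 : ℕ)) (a1 : ℕ) (a2 : ℕ) (a3 : ℕ) (a2 : ℕ) 0 ≤ 0 ∧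
    disp ((s : ℕ) + 3) ((a1 : ℕ) + 2 * (a2 : ℕ) + 3 * (a3 : ℕ))
      ((s : ℕ) + 3 - (a1 : ℕ) - (a2 : ℕ) - (a3 : ℕ)) (a1 : ℕ) (a2 : ℕ) (a3 : ℕ) 0 (a3 : ℕ) ≤ 0 ∧
    disp ((s : ℕ) + 3) ((a1 : ℕ) + 2 * (a2 : ℕ) + 3 * (a3 : ℕ))
      ((s : ℕ) + 3 - (a1 : ℕ) - (a2 : ℕ) - (a3 : ℕ)) (a1 : ℕ) (a2 : ℕ) (a3 : ℕ) (a2 : ℕ) (a3 : ℕ) ≤ 0 := by
  decide +kernel

theorem hfin_small (s j a0 a1 a2 a3 g2 g3 : ℤ) (hs : 3 ≤ s) (hs' : s ≤ 7) (hj : 2 ≤ j) (h0 : 0 ≤ a0)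
    (h1 : 0 ≤ a1) (hg2 : 0 ≤ g2) (hg2' : g2 ≤ a2) (hg3 : 0 ≤ g3) (hg3' : g3 ≤ a3)
    (hS : a0 + a1 + a2 + a3 = s) (hJ : a1 + 2 * a2 + 3 * a3 = j) :
    disp s j a0 a1 a2 a3 g2 g3 ≤ 0 := by
  have key : disp s j a0 a1 a2 a3 0 0 ≤ 0 ∧ disp s j a0 a1 a2 a3 a2 0 ≤ 0 ∧
      disp s j a0 a1 a2 a3 0 a3 ≤ 0 ∧ disp s j a0 a1 a2 a3 a2 a3 ≤ 0 := by
    obtain ⟨n, hn⟩ : ∃ n : ℕ, s = n + 3 := ⟨(s - 3).toNat, by omega⟩
    obtain ⟨m1, hm1⟩ : ∃ n : ℕ, a1 = n := ⟨a1.toNat, by omega⟩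
    obtain ⟨m2, hm2⟩ : ∃ n : ℕ, a2 = n := ⟨a2.toNat, by omega⟩
    obtain ⟨m3, hm3⟩ : ∃ n : ℕ, a3 = n := ⟨a3.toNat, by omega⟩
    have hc := small_check ⟨n, by omega⟩ ⟨m1, by omega⟩ ⟨m2, by omega⟩ ⟨m3, by omega⟩
      (by change m1 + m2 + m3 ≤ n + 3; omega) (by change 2 ≤ m1 + 2 * m2 + 3 * m3; omega)
    have e0 : a0 = (n : ℤ) + 3 - m1 - m2 - m3 := by omega
    have ej : j = (m1 : ℤ) + 2 * m2 + 3 * m3 := by omega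
    rw [hn, ej, e0, hm1, hm2, hm3]
    exact hc
  obtain ⟨c1, c2, c3, c4⟩ := key
  have hlin : ∀ x y : ℤ, disp s j a0 a1 a2 a3 x y = disp s j a0 a1 a2 a3 0 0
      + x * (6 * (min (cFL s j) (cAB s j) - cAB s j) * a0 + 6 * s ^ 2)
      + y * (6 * (min (cFL s j) (cAB s j) - cAB s j) * a0 + 6 * (s + 1) ^ 2) := by
    intro x y
    unfold disp
    ring
  rw [hlin] at c2 c3 c4 ⊢
  generalize disp s j a0 a1 a2 a3 0 0 = Z at *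
  generalize (6 * (min (cFL s j) (cAB s j) - cAB s j) * a0 + 6 * s ^ 2) = k2 at *
  generalize (6 * (min (cFL s j) (cAB s j) - cAB s j) * a0 + 6 * (s + 1) ^ 2) = k3 at *
  have u2 : g2 * k2 ≤ 0 ∨ g2 * k2 ≤ a2 * k2 := by
    rcases le_total 0 k2 with h | h
    · exact Or.inr (mul_le_mul_of_nonneg_right hg2' h)
    · exact Or.inl (mul_nonpos_of_nonneg_of_nonpos hg2 h)
  have u3 : g3 * k3 ≤ 0 ∨ g3 * k3 ≤ a3 * k3 := by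
    rcases le_total 0 k3 with h | h
    · exact Or.inr (mul_le_mul_of_nonneg_right hg3' h)
    · exact Or.inl (mul_nonpos_of_nonneg_of_nonpos hg3 h)
  rcases u2 with u2 | u2 <;> rcases u3 with u3 | u3 <;> linarith

/-- **[F]** the final arithmetic: exactly the hypothesis `hfin` of `RouteA.SetUp.card_le_list` -/
theorem hfin (s j : ℤ) (hs : 3 ≤ s) (hj : 2 ≤ j) :
    ∀ a0 a1 a2 a3 g2 g3 : ℤ, 0 ≤ a0 → 0 ≤ a1 → 0 ≤ g2 → g2 ≤ a2 → 0 ≤ g3 → g3 ≤ a3 →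
      a0 + a1 + a2 + a3 = s → a1 + 2 * a2 + 3 * a3 = j → disp s j a0 a1 a2 a3 g2 g3 ≤ 0 := by
  intro a0 a1 a2 a3 g2 g3 h0 h1 hg2 hg2' hg3 hg3' hS hJ
  rcases le_or_gt s 7 with h | h
  · exact hfin_small s j a0 a1 a2 a3 g2 g3 hs h hj h0 h1 hg2 hg2' hg3 hg3' hS hJ
  · exact hfin_big s j a0 a1 a2 a3 g2 g3 (by linarith) hj h0 h1 hg2 hg2' hg3 hg3' hS hJ

end Helper48.Res
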