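import Mathlib

/-!
# The final arithmetic of route A (case `2 ≤ j`)

All statements are about integers.  `s` is the number of blocks, `j` the number of J-points, `a0, a1, a2, a3` the
numbers of blocks of type 0, 1, 2, 3, and `g2 ≤ a2`, `g3 ≤ a3` the numbers of flagged blocks.
`A` is the bound for a perfect matching which is not of kind II, `A + c` the bound for kind II, `A - D` the bound for
a perfect matching between a flagged block and a block of type 0.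
-/

namespace Helper48.Res

/-- the polynomial core (all regimes, `8 ≤ s`) -/
theorem core (s j A c D : ℤ) (hs : 8 ≤ s) (hc : s - 2 ≤ c) (hD : 0 ≤ D) (hcD : 8 * s ≤ 4 * c + 6 * D)
    (hdisc : (2 * s - 16 + 6 * s ^ 2 - 6 * D * (s - j)) ^ 2
      + 4 * (3 * s * (s - 1) * A + c * (j * (j - 1)) + 18 * s ^ 2 - 12 * s - 6 * j * s + 8 * s + 12)
        * (2 * c + 6 * D) ≤ 0)
    (a b : ℤ) (ha : 0 ≤ a) (hb : 0 ≤ b) :
    (3 * s * (s - 1) * A + c * (j * (j - 1) - 2 * a ^ 2 - 6 * a * b - 6 * b ^ 2) + 18 * s ^ 2 - 12 * s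
        - 6 * j * s + (2 * s - 16) * a + (2 * s - 10) * b
        + 6 * a * (s ^ 2 - D * (s - j + a + 2 * b)) + 6 * b * ((s + 1) ^ 2 - D * (s - j + a + 2 * b)) ≤ 0)
    ∧ (3 * s * (s - 1) * A + c * (j * (j - 1) - 2 * a ^ 2 - 6 * a * b - 6 * b ^ 2) + 18 * s ^ 2 - 12 * s
        - 6 * j * s + (2 * s - 16) * a + (2 * s - 10) * b + 6 * b * (2 * s + 1) ≤ 0) := by
  set α : ℤ := 3 * s * (s - 1) * A + c * (j * (j - 1)) + 18 * s ^ 2 - 12 * s - 6 * j * s with hα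
  set γ : ℤ := 2 * c + 6 * D with hγ
  set β : ℤ := 2 * s - 16 + 6 * s ^ 2 - 6 * D * (s - j) with hβ
  have hγ0 : 0 < γ := by rw [hγ]; linarith
  have hd : β ^ 2 + 4 * (α + 8 * s + 12) * γ ≤ 0 := by
    have : α + 8 * s + 12 = 3 * s * (s - 1) * A + c * (j * (j - 1)) + 18 * s ^ 2 - 12 * s - 6 * j * s
        + 8 * s + 12 := by rw [hα]
    rw [this]; exact hdisc
  have hαneg : α + 8 * s + 12 ≤ 0 := by
    by_contra hcon
    push Not at hcon
    have h1 : 0 < 4 * (α + 8 * s + 12) * γ := by positivity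
    nlinarith [sq_nonneg β]
  constructor
  · -- full
    have hq : ∀ w : ℤ, α + 8 * s + 12 + β * w - γ * w ^ 2 ≤ 0 := by
      intro w
      by_contra hcon
      push Not at hcon
      have h1 : 0 < 4 * γ * (α + 8 * s + 12 + β * w - γ * w ^ 2) := by positivity
      nlinarith [sq_nonneg (2 * γ * w - β)]
    have hw := hq (a + b)
    have hext : b * (12 * s + 12) - c * (2 * (a + b) * b + 2 * b ^ 2) - 6 * D * ((a + b) * b) ≤ 8 * s + 12 := by
      have hc0 : 0 ≤ c := by linarith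
      have e1 : 0 ≤ c * (2 * (a * b)) := by positivity
      have e2 : 0 ≤ 6 * D * (a * b) := by positivity
      have e3 : 8 * s * b ^ 2 ≤ (4 * c + 6 * D) * b ^ 2 := mul_le_mul_of_nonneg_right hcD (by positivity)
      have e4 : b * (12 * s + 12) - 8 * s * b ^ 2 ≤ 8 * s + 12 := by
        rcases lt_or_ge b 2 with hb2 | hb2
        · interval_cases b
          · linarith
          · linarith
        · have : 0 ≤ (b - 2) * (s * b) := by
            apply mul_nonneg (by linarith)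
            positivity
          nlinarith [mul_nonneg (show (0:ℤ) ≤ s - 3 by linarith) hb]
      nlinarith
    nlinarith
  · have e1 : (2 * s - 16) * a - 2 * c * a ^ 2 ≤ 0 := by
      have h1 : a ≤ a ^ 2 := by nlinarith [Int.le_self_sq a]
      have h2 : 2 * (s - 2) * a ^ 2 ≤ 2 * c * a ^ 2 := by nlinarith [sq_nonneg a]
      nlinarith
    have e2 : (2 * s - 10) * b + 6 * b * (2 * s + 1) - 6 * c * b ^ 2 ≤ 8 * s + 12 := by
      have h2 : 6 * (s - 2) * b ^ 2 ≤ 6 * c * b ^ 2 := by nlinarith [sq_nonneg b]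
      have h3 : (14 * s - 4) * b - 6 * (s - 2) * b ^ 2 ≤ 8 * s + 12 := by
        rcases lt_or_ge b 2 with hb2 | hb2
        · interval_cases b
          · linarith
          · linarith
        · rcases lt_or_ge b 3 with hb3 | hb3
          · have : b = 2 := by linarith
            subst this; linarith
          · have : 0 ≤ (b - 3) * ((s - 2) * b) := by
              apply mul_nonneg (by linarith)
              apply mul_nonneg (by linarith) hb
            nlinarith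
      linarith
    have e3 : 0 ≤ 6 * c * (a * b) := by
      have hc0 : 0 ≤ c := by linarith
      positivity
    nlinarith


/-- the number of matchings which can be of kind II, in closed form -/
theorem NN_eq (j a1 a2 a3 : ℤ) (h : a1 + 2 * a2 + 3 * a3 = j) :
    a1 * (a1 - 1) + 4 * a1 * a2 + 2 * a2 * (a2 - 1) + 6 * (a1 + a2) * a3 + 3 * a3 * (a3 - 1)
      = j * (j - 1) - 2 * a2 ^ 2 - 6 * a2 * a3 - 6 * a3 ^ 2 := by
  subst h; ring

/-- discriminant, `3 j ≤ s + 4`, `4 ≤ j` -/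
theorem disc1 (s j : ℤ) (hj : 4 ≤ j) (h : 3 * j ≤ s + 4) :
    (2 * s - 16 + 6 * s ^ 2 - 6 * (s + 6 - 2 * j) * (s - j)) ^ 2
      + 4 * (3 * s * (s - 1) * (-3 * j) + (s - 6 + 2 * j) * (j * (j - 1)) + 18 * s ^ 2 - 12 * s - 6 * j * s
          + 8 * s + 12) * (2 * (s - 6 + 2 * j) + 6 * (s + 6 - 2 * j)) ≤ 0 := by
  have hP : ∀ u v : ℤ, 0 ≤ u → 0 ≤ v → 0 ≤ 3100*v^4 + 4312*u*v^3 + 1948*u^2*v^2 + 288*u^3*v + 34952*v^3
      + 34320*u*v^2 + 9544*u^2*v + 576*u^3 + 142364*v^2 + 88056*u*v + 11164*u^2 + 248832*v + 72384*u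
      + 156544 := by
    intro u v hu hv
    positivity
  have h1 := hP (s - 3 * j + 4) (j - 4) (by linarith) (by linarith)
  nlinarith [h1]

/-- discriminant, `j = 3` -/
theorem disc1' (s : ℤ) (hs : 8 ≤ s) :
    (2 * s - 16 + 6 * s ^ 2 - 6 * (s + 6 - 2 * 3) * (s - 3)) ^ 2
      + 4 * (3 * s * (s - 1) * (-3 * 3) + (s - 6 + 2 * 3) * (3 * (3 - 1)) + 18 * s ^ 2 - 12 * s - 6 * 3 * s
          + 8 * s + 12) * (2 * (s - 6 + 2 * 3) + 6 * (s + 6 - 2 * 3)) ≤ 0 := by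
  have hP : ∀ u : ℤ, 0 ≤ u → 0 ≤ 288*u^3 + 6160*u^2 + 43520*u + 101120 := by
    intro u hu
    positivity
  have h1 := hP (s - 8) (by linarith)
  nlinarith [h1]

/-- discriminant, `s + 4 ≤ 3 j`, `j ≤ s` -/
theorem disc2 (s j : ℤ) (hs : 8 ≤ s) (h : s + 4 ≤ 3 * j) (h2 : j ≤ s) :
    (2 * s - 16 + 6 * s ^ 2 - 6 * (j + 2) * (s - j)) ^ 2
      + 4 * (3 * s * (s - 1) * (-(s + 4)) + (2 * s - 2 - j) * (j * (j - 1)) + 18 * s ^ 2 - 12 * s - 6 * j * s
          + 8 * s + 12) * (2 * (2 * s - 2 - j) + 6 * (j + 2)) ≤ 0 := by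
  have hP : ∀ u v : ℤ, 0 ≤ u → 0 ≤ v → 12 ≤ 3 * u + v →
      0 ≤ 28*v^4 + 480*u*v^3 + 2440*u^2*v^2 + 4896*u^3*v + 3100*u^4 + 528*v^3 + 6000*u*v^2 + 19248*u^2*v
        + 20304*u^3 + 3120*v^2 + 19872*u*v + 28208*u^2 + 1664*v - 3200*u - 26880 := by
    intro u v hu hv ht
    have h1 : 0 ≤ (3 * u + v - 12) * (2240 + 830 * u + 48 * v) :=
      mul_nonneg (by linarith) (by positivity)
    have h2 : 0 ≤ 28*v^4 + 480*u*v^3 + 2440*u^2*v^2 + 4896*u^3*v + 3100*u^4 + 528*v^3 + 6000*u*v^2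
        + 19248*u^2*v + 20304*u^3 + 3072*v^2 + 18898*u*v + 25718*u^2 + 40*u := by positivity
    nlinarith [h1, h2]
  have h1 := hP (s - j) (3 * j - s - 4) (by linarith) (by linarith) (by linarith)
  nlinarith [h1]

/-- discriminant, `s ≤ j`, `2 j ≤ 3 s + 2` -/
theorem disc3 (s j : ℤ) (hs : 8 ≤ s) (h : s ≤ j) (h2 : 2 * j ≤ 3 * s + 2) :
    (2 * s - 16 + 6 * s ^ 2 - 6 * (3 * s + 2 - 2 * j) * (s - j)) ^ 2
      + 4 * (3 * s * (s - 1) * (2 * s - 4 - 3 * j) + (2 * j - s - 2) * (j * (j - 1)) + 18 * s ^ 2 - 12 * s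
          - 6 * j * s + 8 * s + 12) * (2 * (2 * j - s - 2) + 6 * (3 * s + 2 - 2 * j)) ≤ 0 := by
  have hP : ∀ u v : ℤ, 0 ≤ u → 0 ≤ v → 10 ≤ 2 * u + v →
      0 ≤ 28*v^4 + 248*u*v^3 + 604*u^2*v^2 + 576*u^3*v + 192*u^4 - 184*v^3 - 1128*u*v^2 - 1712*u^2*v
        - 768*u^3 + 300*v^2 + 1536*u*v + 1200*u^2 - 528*v - 1120*u + 240 := by
    intro u v hu hv ht
    have h1 : 0 ≤ (2 * u + v - 10) * (19*v^3 + 113*u*v^2 + 172*u^2*v + 77*u^3 + 53*v + 112*u) :=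
      mul_nonneg (by linarith) (by positivity)
    have h2 : 0 ≤ 9*v^4 + 97*u*v^3 + 206*u^2*v^2 + 155*u^3*v + 38*u^4 + 6*v^3 + 2*u*v^2 + 8*u^2*v + 2*u^3
        + 247*v^2 + 1318*u*v + 976*u^2 + 2*v + 240 := by positivity
    nlinarith [h1, h2]
  have h1 := hP (j - s) (3 * s + 2 - 2 * j) (by linarith) (by linarith) (by linarith)
  nlinarith [h1]

/-- discriminant, `3 s + 2 ≤ 2 j`, `j ≤ 3 s` -/
theorem disc4 (s j : ℤ) (hs : 8 ≤ s) (h : 3 * s + 2 ≤ 2 * j) (h2 : j ≤ 3 * s) :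
    (2 * s - 16 + 6 * s ^ 2 - 6 * 0 * (s - j)) ^ 2
      + 4 * (3 * s * (s - 1) * (2 * s - 4 - 3 * j) + (2 * s) * (j * (j - 1)) + 18 * s ^ 2 - 12 * s
          - 6 * j * s + 8 * s + 12) * (2 * (2 * s) + 6 * 0) ≤ 0 := by
  have hP : ∀ u v : ℤ, 0 ≤ u → 0 ≤ v → 22 ≤ u + v →
      0 ≤ 12*v^4 + 120*u*v^3 + 216*u^2*v^2 + 120*u^3*v + 12*u^4 + 96*v^3 + 360*u*v^2 + 144*u^2*v - 120*u^3
        + 396*v^2 + 216*u*v - 468*u^2 - 2640*v - 3504*u - 27024 := by
    intro u v hu hv ht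
    have h1 : 0 ≤ (u + v - 22) * (7*u^3 + 32*u^2 + 8*u*v + 176*v + 216*u + 1229) :=
      mul_nonneg (by linarith) (by positivity)
    have h2 : 0 ≤ 12*v^4 + 120*u*v^3 + 216*u^2*v^2 + 113*u^3*v + 5*u^4 + 96*v^3 + 352*u*v^2 + 104*u^2*v
        + 2*u^3 + 220*v^2 + 20*u^2 + 3*v + 19*u + 14 := by positivity
    nlinarith [h1, h2]
  have h1 := hP (2 * j - 3 * s - 2) (6 * s - 2 * j) (by linarith) (by linarith) (by linarith)
  nlinarith [h1]

end Helper48.Res
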